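import Mathlib
import Pool.Agent.V7H36.BC.Main

/-!
# The Baum-Connes conjecture with commutative coefficients for algebraic actions

Let `G` be a connected Lie group of any real rank. We consider locally compact spaces `V` with an
algebraic action of `G` (`IsAlgebraic`): the real points of an algebraic variety on which a real linear
algebraic group acts whose group of real points contains the image of `G` as a subgroup of finite
index. There is no condition on the variety; it can be singular, and the action can have infinitely
many orbits which are not closed.

1. (Local-global principle.) Let `X` be a locally compact `G`-space and `f : X → V` a continuous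
   equivariant map. If for all `v` in `V` the assembly map is an isomorphism for the stabilizer `G_v`
   and the `G_v`-space `f⁻¹ (v)`, then it is an isomorphism for `G` and `X`.
2. The assembly map is an isomorphism for `G` and all locally closed invariant subsets of `V`, in
   particular for `V` itself, if the stabilizers have finitely many connected components (this holds
   for all algebraic actions, because the stabilizers are real algebraic groups up to finite index,
   if `G` is a subgroup of the real algebraic group).
3. If all the stabilizers of the points of `V` are extensions of a-T-menable groups by a-T-menable
   groups, then the assembly map is an isomorphism for `G` and ALL locally compact `G`-spaces `X` which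
   have a continuous equivariant map to `V`. For instance, all the proper algebraic subgroups of
   `G = SL_3(ℝ)` have this property; so the conjecture holds for `G = SL_3(ℝ)` and all `G`-spaces
   which can be mapped to an algebraic `G`-space without fixed points.

In the problem the conjecture is known for arbitrary `X` only for a limited class of groups (real rank
one among the simple groups, a-T-menable groups), and for a point.

The same is true for locally closed invariant subsets `A` of `X` and maps which are continuous and
equivariant on `A`, and in this form it is stated. The proof is a Noetherian induction over the Zariski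
closed invariant subsets of `V` by the theorem of Rosenlicht on the quotient of an invariant open
subset, with the finiteness theorem of Borel and Harish-Chandra for the orbits on the real points.

`BC H S` stands for the assertion that the assembly map is an isomorphism for the closed subgroup `H`
and the `H`-space `S`, a locally closed subset of `X`. `IsAssembly` collects the known theorems.
-/

set_option autoImplicit false

open MulAction
open scoped Manifold

namespace Pool.Agent.Results.MP_aa9b81_an.AlgebraicActionsH36

open Pool.Agent.V7H36.BC

theorem closed_stabilizer {G V : Type} [Group G] [TopologicalSpace G] [TopologicalSpace V]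
    [T2Space V] [MulAction G V] [ContinuousSMul G V] (v : V) :
    IsClosed (stabilizer G v : Set G) := by
  have h1 : (stabilizer G v : Set G) = (fun g : G => g • v) ⁻¹' {v} := by
    ext g
    simp [mem_stabilizer_iff]
  rw [h1]
  exact isClosed_singleton.preimage (continuous_id.smul continuous_const)

/-- **The Baum-Connes conjecture with commutative coefficients for algebraic actions.** -/
theorem result {E : Type} [NormedAddCommGroup E] [NormedSpace ℝ E] [FiniteDimensional ℝ E]
    (G : Type) [Group G] [TopologicalSpace G] [ChartedSpace E G] [LieGroup 𝓘(ℝ, E) ⊤ G]
    [T2Space G] [SecondCountableTopology G] [ConnectedSpace G] (V : Type) [TopologicalSpace V]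
    [LocallyCompactSpace V] [T2Space V] [SecondCountableTopology V] [MulAction G V]
    [ContinuousSMul G V] (Z : Set (Set V)) (hZ : IsAlgebraic G Z) :
    (∀ (X : Type) [TopologicalSpace X] [LocallyCompactSpace X] [T2Space X]
      [SecondCountableTopology X] [MulAction G X] [ContinuousSMul G X]
      (BC : Subgroup G → Set X → Prop), IsAssembly V BC → ∀ A : Set X,
      Invariant (⊤ : Subgroup G) A → IsLocallyClosed A → ∀ f : X → V, ContinuousOn f A →
      EquivariantOn G f A →
        -- the local-global principle
        ((∀ v : V, BC (stabilizer G v) (A ∩ f ⁻¹' {v})) → BC ⊤ A) ∧
        -- good stabilizers
        ((∀ v : V, IsGood (stabilizer G v)) → BC ⊤ A)) ∧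
    -- the invariant locally closed subsets of `V`
    ∀ BC : Subgroup G → Set V → Prop, IsAssembly V BC → ∀ S : Set V,
      Invariant (⊤ : Subgroup G) S → IsLocallyClosed S →
      (∀ v ∈ S, Finite (ConnectedComponents (stabilizer G v))) → BC ⊤ S := by
  refine ⟨?_, ?_⟩
  · intro X _ _ _ _ _ _ BC h A hA hA' f hf hf'
    refine ⟨fun hBC => main h hZ hA hA' hf hf' hBC, fun hg => main h hZ hA hA' hf hf' fun v => ?_⟩
    refine h.good _ _ (closed_stabilizer v) (hg v) ?_
      (locallyClosed_preimage hA' hf isClosed_singleton.isLocallyClosed)
    rintro g hg x ⟨hx, hx'⟩
    refine ⟨hA g trivial x hx, ?_⟩
    have h1 : f x = v := hx'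
    change f (g • x) = v
    rw [hf' g x hx, h1]
    exact hg
  · intro BC h S hS hS' hfin
    refine main h hZ hS hS' (f := id) continuousOn_id (fun g x _ => rfl) fun v => ?_
    by_cases hv : v ∈ S
    · have h1 : S ∩ id ⁻¹' {v} = {v} := by
        ext x
        simp only [Set.preimage_id, Set.mem_inter_iff, Set.mem_singleton_iff, and_iff_right_iff_imp]
        rintro rfl
        exact hv
      rw [h1]
      exact h.point _ _ (closed_stabilizer v) (hfin v hv) fun g hg => hg
    · have h1 : S ∩ id ⁻¹' {v} = ∅ := by
        ext x
        simp only [Set.preimage_id, Set.mem_inter_iff, Set.mem_singleton_iff, Set.mem_empty_iff_false,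
          iff_false, not_and]
        rintro hx rfl
        exact hv hx
      rw [h1]
      exact h.empty _

end Pool.Agent.Results.MP_aa9b81_an.AlgebraicActionsH36
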