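import Mathlib
import Pool.Agent.V7H36.NG.Threshold

/-!
# The Baum-Connes conjecture with commutative coefficients: reduction to small stabilizers

Let `G` be any connected Lie group, `X` a locally compact `G`-space, and for `x` in `X` let `h_x` be the
Lie algebra of the stabilizer `G_x`. There is no condition on the orbits; they need not be locally
closed.

1. (Local-global principle.) If for all subspaces `W` of the Lie algebra of `G` the assembly map is an
   isomorphism for the normalizer `N_G (W)` and the space of the points `x` with `h_x = W`, then also
   for `G` and `X`.
2. Let `m` be a number such that for all points `x` whose stabilizer has dimension at least `m` the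
   group `N_G (h_x) / G_x⁰` is an extension of an a-T-menable group by an a-T-menable group. Then
   the assembly map is an isomorphism for `G` and `X` if and only if it is an isomorphism for `G` and the
   open set of the points whose stabilizers have dimension less than `m`.
3. (The case `m = 1`.) If the condition is true for all points whose stabilizer is not discrete, then the
   assembly map is an isomorphism for `G` and `X` if and only if it is an isomorphism for `G` and the
   open set `X_0` of the points with discrete stabilizers.
4. If the condition is true for all closed subgroups of `G` which are not discrete, then this can be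
   applied to all `G`-spaces: the conjecture of Baum and Connes for `G` and commutative
   coefficients is reduced to locally free actions, and it is true for `G` and all spaces without
   discrete stabilizers. For instance `G` can be `SL_3(ℝ)`, where the proper closed subgroups have
   dimension at most six, or `Sp_4(ℝ)`, or any group which is locally isomorphic to one of these.

Proof: the set of the pairs `(ξ, x)` with `ξ` in `h_x` is closed, so the dimension of `h_x` is upper
semicontinuous, and the map from `x` to `h_x` is continuous on the set of the points with
`dim h_x = d`. It is an equivariant map to the Grassmannian of the Lie algebra. Let `H` be the Zariski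
closure of the image of `G` in the adjoint group. The Grassmannian has a finite stratification with good
quotients by `H` (Rosenlicht), and the orbits of `H` are almost orbits of `G` (`IsAlmostOrbit`), because
the commutator group of `H` is contained in the image of `G`. This reduces everything to the stabilizers
`N_G (W)` of the points of the Grassmannian. The identity component of `G_x` acts trivially on the points
with Lie algebra `h_x`. A closed subgroup is discrete if and only if its Lie algebra is zero
(`discrete_iff`).

`BC H S` stands for the assertion that the assembly map is an isomorphism for the closed subgroup `H`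
and the `H`-space `S`, a locally closed subset of `X`. `IsAssembly` collects the known theorems on the
assembly map, `IsLieGroup` and `IsStratified` the known facts about Lie groups.
-/

set_option autoImplicit false

open MulAction Topology

namespace Pool.Agent.Results.MP_aa9b81_an.NonDiscreteStabilizersH36

open Pool.Agent.V7H36.BC (Invariant)
open Pool.Agent.V7H36.NG

/-- **The Baum-Connes conjecture with commutative coefficients: reduction to small stabilizers.** -/
theorem result (G : Type) [Group G] [TopologicalSpace G] [IsTopologicalGroup G] [ConnectedSpace G]
    (L : Type) [NormedAddCommGroup L] [NormedSpace ℝ L] [FiniteDimensional ℝ L] (ex : L → G)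
    (ad : G →* (L ≃ₗ[ℝ] L)) (hL : IsLieGroup ex ad)
    (hZ : ∀ d, ∃ Z : Set (Set (Gr ad d)), IsStratified G Z)
    (X : Type) [TopologicalSpace X] [LocallyCompactSpace X] [T2Space X]
    [SecondCountableTopology X] [MulAction G X] [ContinuousSMul G X]
    (BC : Subgroup G → Set X → Prop) (h : ∀ d, IsAssembly (Gr ad d) BC)
    (A : Set X) (hA : Invariant (⊤ : Subgroup G) A) (hA' : IsLocallyClosed A) :
    -- the local-global principle
    ((∀ W : Submodule ℝ L,
      BC (normalizerOf ad (W : Set L)) {x | x ∈ A ∧ lieOf ex (stabilizer G x) = W}) → BC ⊤ A) ∧
    -- the points with large stabilizers
    (∀ m : ℕ, (∀ x ∈ A, m ≤ dimOf ex (stabilizer G x) →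
        IsLarge ex ad (lieOf ex (stabilizer G x))) →
      (BC ⊤ A ↔ BC ⊤ {x | x ∈ A ∧ dimOf ex (stabilizer G x) < m})) ∧
    -- the points with discrete stabilizers
    ((∀ x ∈ A, ¬ DiscreteTopology (stabilizer G x) →
        IsLarge ex ad (lieOf ex (stabilizer G x))) →
      (BC ⊤ A ↔ BC ⊤ {x | x ∈ A ∧ DiscreteTopology (stabilizer G x)})) ∧
    -- groups for which all spaces are covered
    ((∀ H : Subgroup G, IsClosed (H : Set G) → ¬ DiscreteTopology H → IsLarge ex ad (lieOf ex H)) →
      (BC ⊤ A ↔ BC ⊤ {x | x ∈ A ∧ DiscreteTopology (stabilizer G x)}) ∧
      ((∀ x ∈ A, ¬ DiscreteTopology (stabilizer G x)) → BC ⊤ A)) := by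
  have hdis : (∀ x ∈ A, ¬ DiscreteTopology (stabilizer G x) →
        IsLarge ex ad (lieOf ex (stabilizer G x))) →
      (BC ⊤ A ↔ BC ⊤ {x | x ∈ A ∧ DiscreteTopology (stabilizer G x)}) := by
    intro hg
    rw [discrete_set hL]
    refine threshold hL h hZ hA hA' 1 fun x hx hd => hg x hx fun hd' => ?_
    have h1 := (discrete_iff hL _ (isClosed_stab x)).1 hd'
    omega
  refine ⟨fun hBC => ?_, fun m hg => threshold hL h hZ hA hA' m hg, hdis, fun hG => ?_⟩
  · refine local_global hL h hZ hA hA' 0 ?_ fun W _ => hBC W
    have e : {x | x ∈ A ∧ Module.finrank ℝ (lie hL x) < 0} = ∅ := by
      ext x
      constructor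
      · rintro ⟨-, h1⟩
        omega
      · intro h1
        exact absurd h1 (Set.notMem_empty x)
    rw [e]
    exact (h 0).empty _
  · have key := hdis fun x _ hd => hG _ (isClosed_stab x) hd
    refine ⟨key, fun hn => key.2 ?_⟩
    have e : {x | x ∈ A ∧ DiscreteTopology (stabilizer G x)} = ∅ := by
      ext x
      constructor
      · rintro ⟨h1, h2⟩
        exact hn x h1 h2
      · intro h1
        exact absurd h1 (Set.notMem_empty x)
    rw [e]
    exact (h 0).empty _

end Pool.Agent.Results.MP_aa9b81_an.NonDiscreteStabilizersH36
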