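import Mathlib
import Pool.Agent.V7H36.NG.Orbits

/-!
# The Baum-Connes conjecture with commutative coefficients for orbits of dimension at most seven

Let `G` be any connected Lie group. We show that the conjecture of Baum and Connes is true for `G` and all
locally compact `G`-spaces `X` with orbits of dimension at most seven, in particular for all smooth
actions of `G` on manifolds of dimension at most seven. There is no condition on the real rank of `G`, on
the closures of the orbits, on the space of orbits and on the groups of components of the stabilizers.

1. For all locally compact `G`-spaces `X` the assembly map is an isomorphism for `G` and `X` if and only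
   if it is an isomorphism for `G` and the open set of the points whose orbits have dimension at least
   eight. (For `G = SL_3(ℝ)` this is the set of the points with discrete stabilizers. So this is the
   first open case.)
2. The assembly map is an isomorphism for `G` and `X` if for all points `x` the group `N_G (h_x) / G_x⁰`
   has dimension at most seven; here `h_x` is the Lie algebra of the stabilizer `G_x`.
3. Let `G` be simple, with all proper closed subgroups of codimension at least `c`, and
   `c + 7 < dim G`. Then the assembly map is an isomorphism for `G` and all `X` with orbits of
   dimension at most `c + 7`. For instance, for `G = SL_n(ℝ)`, `n ≥ 4`, one can take all `X` with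
   orbits of dimension at most `n + 6`.
4. The assembly map is an isomorphism for all differentiable actions of `G` on manifolds of dimension
   at most seven, and at most `c + 7` in the case 3 (at most `n + 6` for `SL_n(ℝ)`, `n ≥ 4`).

The same is shown for the locally closed invariant subsets `A` of `X`.

Proof: the set of the pairs `(ξ, x)` with `ξ` in `h_x` is closed; so the dimension of `h_x` is upper
semicontinuous, and the map from `x` to `h_x` is continuous on the locally closed set of the points with
`dim h_x = d` (`isOpen_finrank_lt`, `isOpen_disjoint`). It is an equivariant map to the Grassmannian `V`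
of the Lie algebra of `G`. Let `H` be the Zariski closure of the image of `G` in the adjoint group. By
Rosenlicht `V` has a finite stratification with good quotients by `H`, and the orbits of `H` are almost
orbits of `G`, because the commutator group of `H` is contained in the image of `G`. This gives the
local-global principle (`main`, `local_global`): it is sufficient to study for each subspace `W` of
the Lie algebra the action of `N_G (W)` on the set of the points `x` with `h_x = W`. The connected group
`G_x⁰` acts trivially there, and the Lie group `N_G (W) / G_x⁰` has dimension at most seven. Modulo an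
amenable normal subgroup it is therefore locally isomorphic to a product of groups `SL_2(ℝ)`, `SU(2)`
and `SL_2(ℂ)`, because all the other simple Lie groups have dimension at least eight. So it is an
extension of an a-T-menable group by an amenable group, and the theorems of Higson and Kasparov, Chabert,
Echterhoff, Nest and Oyono-Oyono can be applied (`large_case`). For a differentiable action the kernel
of the derivative of the orbit map at `x` is contained in `h_x` (`codim_le`).

`BC H S` stands for the assertion that the assembly map is an isomorphism for the closed subgroup `H`
and the `H`-space `S`, a locally closed subset of `X`. `IsAssembly` collects the known theorems on the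
assembly map; `IsLieGroup`, `IsStratified` and `SmallQuotients` the known facts about Lie groups.
-/

set_option autoImplicit false

open MulAction Topology
open scoped Manifold

namespace Pool.Agent.Results.MP_aa9b81_an.SmallOrbitsH36

open Pool.Agent.V7H36.BC (Invariant)
open Pool.Agent.V7H36.NG

/-- **The Baum-Connes conjecture with commutative coefficients for orbits of dimension at most
seven.** -/
theorem result (G : Type) [Group G] [TopologicalSpace G] [IsTopologicalGroup G] [ConnectedSpace G]
    (L : Type) [NormedAddCommGroup L] [NormedSpace ℝ L] [FiniteDimensional ℝ L] (ex : L → G)
    (ad : G →* (L ≃ₗ[ℝ] L)) (hL : IsLieGroup ex ad)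
    (hZ : ∀ d, ∃ Z : Set (Set (Gr ad d)), IsStratified G Z) (hK : SmallQuotients ex ad)
    (X : Type) [TopologicalSpace X] [LocallyCompactSpace X] [T2Space X]
    [SecondCountableTopology X] [MulAction G X] [ContinuousSMul G X]
    (BC : Subgroup G → Set X → Prop) (h : ∀ d, IsAssembly (Gr ad d) BC)
    (A : Set X) (hA : Invariant (⊤ : Subgroup G) A) (hA' : IsLocallyClosed A) :
    -- only the orbits of dimension at least eight matter
    (BC ⊤ A ↔ BC ⊤ {x | x ∈ A ∧ dimOf ex (stabilizer G x) + 8 ≤ Module.finrank ℝ L}) ∧
    -- orbits of dimension at most seven
    ((∀ x ∈ A, Module.finrank ℝ L ≤ dimOf ex (stabilizer G x) + 7) → BC ⊤ A) ∧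
    -- normalizers
    ((∀ x ∈ A, dimOf ex (normalizerOf ad (lieOf ex (stabilizer G x))) ≤
      dimOf ex (stabilizer G x) + 7) → BC ⊤ A) ∧
    -- simple groups
    (∀ c : ℕ, IsSimpleOfCodim ex ad c →
      (∀ x ∈ A, Module.finrank ℝ L ≤ dimOf ex (stabilizer G x) + (c + 7)) → BC ⊤ A) ∧
    -- differentiable actions on manifolds
    (∀ (F : Type) [NormedAddCommGroup F] [NormedSpace ℝ F] [FiniteDimensional ℝ F]
      [ChartedSpace F X] [IsManifold 𝓘(ℝ, F) 1 X], IsDifferentiableAction ex F X →
      (Module.finrank ℝ F ≤ 7 ∨ ∃ c : ℕ, IsSimpleOfCodim ex ad c ∧ Module.finrank ℝ F ≤ c + 7) →
      BC ⊤ A) := by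
  have key : (∀ x ∈ A, Module.finrank ℝ L ≤ dimOf ex (stabilizer G x) + 7) → BC ⊤ A := by
    intro hg
    exact small_orbits hL h hZ hK hA hA' fun x hx => (dimOf_le _).trans (hg x hx)
  refine ⟨orbit_iff hL h hZ hK hA hA', key, fun hg => small_orbits hL h hZ hK hA hA' hg,
    fun c hs hg => simple_case hL h hZ hK hA hA' hs hg, ?_⟩
  intro F _ _ _ _ _ hd hF
  rcases hF with hF | ⟨c, hs, hF⟩
  · exact key fun x _ => (codim_le hL hd x).trans (by omega)
  · exact simple_case hL h hZ hK hA hA' hs fun x _ => (codim_le hL hd x).trans (by omega)

end Pool.Agent.Results.MP_aa9b81_an.SmallOrbitsH36
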