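import Mathlib
import Pool.Agent.V7H9.BT.Main
import Pool.Agent.V7H9.BT.Smooth

/-!
# The Baum-Connes conjecture with commutative coefficients over smooth actions with tame or
# a-T-menable strata

Let `G` be a connected Lie group of any real rank, and let `V` be a locally compact `G`-space whose
action has tame or a-T-menable strata (`HasStrata`): each nonempty closed invariant subset `W` of `V` has a
nonempty relatively open subset which is invariant and a-T-menable (in the sense of Tu, for example
amenable or proper), or which consists of points with locally closed orbits and has a transversal. We
show first (part 0) that all smooth actions of `G` on manifolds have transversals; so this is the case for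
all smooth actions with locally closed orbits, and more generally if each nonempty closed invariant
subset `W` of the manifold has a nonempty relatively open subset which consists of points with locally closed
orbits or is invariant and a-T-menable. The action need not be algebraic or proper, there is no
condition on the stabilizers (which can be discrete and can vary wildly) and on the dimensions of the
orbits, and the space of orbits can be non-Hausdorff everywhere; in the a-T-menable strata (such as
`G/Γ × G/P`, `Γ` a lattice and `P` a minimal parabolic subgroup) the orbits can be dense.

1. (Local-global principle.) Let `X` be a locally compact `G`-space and `f : X → V` a continuous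
   equivariant map. If for all `v` in `f (X)` with locally closed orbits the assembly map is an
   isomorphism for the stabilizer `G_v` and the `G_v`-space `f⁻¹ (v)`, then it is an isomorphism for `G`
   and `X`. For instance (`X = V × Y`) it is an isomorphism for `G` and `V × Y`, `Y` any
   `G`-space, if it is one for `G_v` and `Y` for all `v` in `V` with locally closed orbits.
2. The assembly map is an isomorphism for `G` and all locally closed invariant subsets `S` of `V` such
   that the stabilizers of the points of `S` with locally closed orbits have finitely many connected
   components.
3. If the stabilizers of the points of `f (X)` with locally closed orbits are extensions of a-T-menable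
   groups by a-T-menable groups, then the assembly map is an isomorphism for `G` and `X`.

The same is true for locally closed invariant subsets `A` of `X` and maps which are continuous and
equivariant on `A`, and in this form it is stated.

`BC H S` stands for the assertion that the assembly map is an isomorphism for the closed subgroup `H`
and the `H`-space `S`, a locally closed subset of `X`. `IsAssembly` and `IsAssemblyLimit` collect
the known theorems (Kasparov; Higson, Kasparov; Tu; Chabert, Echterhoff, Nest, Oyono-Oyono).

Part 0 (`Pool.Agent.V7H9.BT.exists_transversal`): let `x₀` in `W` be a point whose orbit has the greatest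
dimension `k` among the orbits in `W` near a given point, `H` a complement of the kernel of the
derivative of the orbit map at `x₀` and `S` a complement of its image, in local coordinates; then
`(ξ, s) ↦ ξ s` is a local diffeomorphism from `H × S` to `V`, and the projection `τ` to `S` is locally
constant along the orbits in `W`, since these orbits have dimension `k` near `x₀` (`flow_box`).

The algebraic case, where one has the theorem of Rosenlicht and a Noetherian induction, is
`Pool.Agent.Results.MP_aa9b81_an.AlgebraicActionsH36`. Here these are replaced by the following
theorem of Glimm type (`Pool.Agent.V7H9.BT.glimm_locallyClosed`, proved with the category theorem of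
Baire and the open mapping theorem for the locally closed orbits): if the orbits in the locally closed
invariant set `W` are locally closed then `W` contains a nonempty relatively open subset `U` such that any
two points of `U` in the same orbit differ by an element of a given neighbourhood of the identity. So
the projection to a transversal is invariant on a smaller set and extends to a continuous invariant map on
`G U` which separates the orbits (`exists_quotient`). The induction over the strata is transfinite, by
the lemma of Zorn.
-/

set_option autoImplicit false

open MulAction
open scoped Manifold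

namespace Pool.Agent.Results.MP_aa9b81_an.SmoothActionsH9

open Pool.Agent.V7H36.BC Pool.Agent.V7H9.BT

theorem closed_stabilizer {G V : Type} [Group G] [TopologicalSpace G] [TopologicalSpace V]
    [T2Space V] [MulAction G V] [ContinuousSMul G V] (v : V) :
    IsClosed (stabilizer G v : Set G) := by
  have h1 : (stabilizer G v : Set G) = (fun g : G => g • v) ⁻¹' {v} := by
    ext g
    simp [mem_stabilizer_iff]
  rw [h1]
  exact isClosed_singleton.preimage (continuous_id.smul continuous_const)

/-- **The Baum-Connes conjecture with commutative coefficients over actions with tame or a-T-menable
strata.** -/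
theorem result {E : Type} [NormedAddCommGroup E] [NormedSpace ℝ E] [FiniteDimensional ℝ E]
    (G : Type) [Group G] [TopologicalSpace G] [ChartedSpace E G] [LieGroup 𝓘(ℝ, E) ⊤ G]
    [T2Space G] [SecondCountableTopology G] [ConnectedSpace G] :
    -- smooth actions on manifolds with locally closed orbits (or a-T-menable parts) have strata
    (∀ (F : Type) [NormedAddCommGroup F] [NormedSpace ℝ F] [FiniteDimensional ℝ F] (V : Type)
      [TopologicalSpace V] [ChartedSpace F V] [IsManifold 𝓘(ℝ, F) 1 V] [MulAction G V],
      ContMDiff (𝓘(ℝ, E).prod 𝓘(ℝ, F)) 𝓘(ℝ, F) 1 (fun p : G × V => p.1 • p.2) →
      (∀ W : Set V, IsClosed W → Invariant (⊤ : Subgroup G) W → W.Nonempty →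
        ∃ O : Set V, IsOpen O ∧ (W ∩ O).Nonempty ∧
          ((∀ v ∈ W ∩ O, IsLocallyClosed (orbit G v)) ∨
            (Invariant (⊤ : Subgroup G) (W ∩ O) ∧ IsATMenableOn G (W ∩ O)))) →
      HasStrata G V) ∧
    ∀ (V : Type) [TopologicalSpace V] [LocallyCompactSpace V] [T2Space V]
      [SecondCountableTopology V] [MulAction G V] [ContinuousSMul G V], HasStrata G V →
    (∀ (X : Type) [TopologicalSpace X] [LocallyCompactSpace X] [T2Space X]
      [SecondCountableTopology X] [MulAction G X] [ContinuousSMul G X]
      (BC : Subgroup G → Set X → Prop), IsAssembly V BC → IsAssemblyLimit V BC → ∀ A : Set X,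
      Invariant (⊤ : Subgroup G) A → IsLocallyClosed A → ∀ f : X → V, ContinuousOn f A →
      EquivariantOn G f A →
        -- the local-global principle
        ((∀ v ∈ f '' A, IsLocallyClosed (orbit G v) →
          BC (stabilizer G v) (A ∩ f ⁻¹' {v})) → BC ⊤ A) ∧
        -- good stabilizers
        ((∀ v ∈ f '' A, IsLocallyClosed (orbit G v) → IsGood (stabilizer G v)) → BC ⊤ A)) ∧
    -- the invariant locally closed subsets of `V`
    ∀ BC : Subgroup G → Set V → Prop, IsAssembly V BC → IsAssemblyLimit V BC → ∀ S : Set V,
      Invariant (⊤ : Subgroup G) S → IsLocallyClosed S →
      (∀ v ∈ S, IsLocallyClosed (orbit G v) → Finite (ConnectedComponents (stabilizer G v))) →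
        BC ⊤ S := by
  have hG : IsTopologicalGroup G := topologicalGroup_of_lieGroup 𝓘(ℝ, E) ⊤
  have hL : LocallyCompactSpace G := ChartedSpace.locallyCompactSpace E G
  have hS : SigmaCompactSpace G := inferInstance
  have hG1 : LieGroup 𝓘(ℝ, E) 1 G := LieGroup.of_le (n := ⊤) le_top
  refine ⟨fun F _ _ _ V _ _ _ _ hsm h => hasStrata_of_smooth hsm h, ?_⟩
  intro V _ _ _ _ _ _ hV
  refine ⟨?_, ?_⟩
  · intro X _ _ _ _ _ _ BC h hc A hA hA' f hf hf'
    have key : (∀ v ∈ f '' A, IsLocallyClosed (orbit G v) →
        BC (stabilizer G v) (A ∩ f ⁻¹' {v})) → BC ⊤ A := by
      intro hBC
      refine main h hc hV hA hA' hf hf' fun v hlc => ?_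
      by_cases hv : v ∈ f '' A
      · exact hBC v hv hlc
      · have h1 : A ∩ f ⁻¹' {v} = ∅ := by
          ext x
          simp only [Set.mem_empty_iff_false, iff_false]
          rintro ⟨hx, hx'⟩
          exact hv ⟨x, hx, hx'⟩
        rw [h1]
        exact h.empty _
    refine ⟨key, fun hg => key fun v hv hlc => ?_⟩
    refine h.good _ _ (closed_stabilizer v) (hg v hv hlc) ?_
      (locallyClosed_preimage hA' hf isClosed_singleton.isLocallyClosed)
    rintro g hg x ⟨hx, hx'⟩
    refine ⟨hA g trivial x hx, ?_⟩
    have h1 : f x = v := hx'
    change f (g • x) = v
    rw [hf' g x hx, h1]
    exact hg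
  · intro BC h hc S hS hS' hfin
    refine main h hc hV hS hS' (f := id) continuousOn_id (fun g x _ => rfl) fun v hlc => ?_
    by_cases hv : v ∈ S
    · have h1 : S ∩ id ⁻¹' {v} = {v} := by
        ext x
        simp only [Set.preimage_id, Set.mem_inter_iff, Set.mem_singleton_iff, and_iff_right_iff_imp]
        rintro rfl
        exact hv
      rw [h1]
      exact h.point _ _ (closed_stabilizer v) (hfin v hv hlc) fun g hg => hg
    · have h1 : S ∩ id ⁻¹' {v} = ∅ := by
        ext x
        simp only [Set.preimage_id, Set.mem_inter_iff, Set.mem_singleton_iff, Set.mem_empty_iff_false,
          iff_false, not_and]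
        rintro hx rfl
        exact hv hx
      rw [h1]
      exact h.empty _

end Pool.Agent.Results.MP_aa9b81_an.SmoothActionsH9
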